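import Mathlib
import Pool.Agent.H18.Xray.Main

set_option autoImplicit false

namespace Pool.Agent.Results.MP_259ac5_co.SevenPoints

open Pool.Agent.H18.Xray

/-- Q2, negative answer: seven lattice points whose discrete point X-rays do not determine
convex lattice sets (three cosets of a rational 7-torsion subgroup of a plane cubic). -/
theorem result : ∃ P : Finset (ℤ × ℤ), P.card = 7 ∧ ¬ Determines P := by
  refine ⟨{(0, -24024), (0, 0), (48048, 0), (-32032, -28028), (192192, 0), (-48048, -48048),
    (0, 12012)}, by decide +kernel, ?_⟩
  have h := not_determines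
    {(0, -24024), (0, 0), (48048, 0), (-32032, -28028), (192192, 0), (-48048, -48048), (0, 12012)}
    {(672672, 420420), (44352, 25872), (131040, 61152), (80080, 56056), (68640, 25740),
      (448448, 320320), (48048, 20592)}
    {(103488, 44352), (48048, 30030), (360360, 210210), (45045, 21021), (960960, 672672),
      (61152, 22932), (112112, 80080)}
    {(-1, 0), (-1, -1), (0, -1), (1, -3), (1, -2), (3, -5), (5, -8), (2, -3), (3, -4), (1, -1),
      (-7, 10), (-8, 11), (-4, 5), (-1, 1)}
    id 0 (LinearEquiv.refl ℝ _) (by intro x; simp)
    (by decide +kernel) (by decide +kernel) (by decide +kernel) (by decide +kernel)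
  rwa [Finset.image_id] at h

end Pool.Agent.Results.MP_259ac5_co.SevenPoints
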