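import Mathlib
import Pool.Agent.H18.Xray.Main

set_option autoImplicit false

namespace Pool.Agent.Results.MP_259ac5_co.ThreePoints

open Pool.Agent.H18.Xray

/-- Q1, negative answer: no three noncollinear lattice points determine convex lattice sets. -/
theorem result : ∀ P : Finset (ℤ × ℤ), P.card = 3 →
    ¬ Collinear ℝ (emb '' (P : Set (ℤ × ℤ))) → ¬ Determines P := by
  intro P hP hcol
  obtain ⟨p, q, r, -, -, -, rfl⟩ := Finset.card_eq_three.1 hP
  have hD : (((q.1 : ℝ) - p.1) * (r.2 - p.2) - (r.1 - p.1) * (q.2 - p.2)) ≠ 0 := by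
    intro hD
    apply hcol
    have hset : emb '' (({p, q, r} : Finset (ℤ × ℤ)) : Set (ℤ × ℤ)) = {emb p, emb q, emb r} := by
      simp [Set.image_insert_eq]
    rw [hset]
    by_cases hqp : q = p
    · subst hqp
      simpa using collinear_pair ℝ (emb q) (emb r)
    · have hd : det p q r = 0 := by
        have : ((det p q r : ℤ) : ℝ) = 0 := by
          simp only [det]; push_cast; linarith
        exact_mod_cast this
      obtain ⟨t, ht⟩ := (det_iff p q r hqp).2 hd
      rw [collinear_iff_of_mem (p₀ := emb p) (by simp)]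
      refine ⟨emb q - emb p, ?_⟩
      intro x hx
      simp only [Set.mem_insert_iff, Set.mem_singleton_iff] at hx
      rcases hx with rfl | rfl | rfl
      · exact ⟨0, by simp⟩
      · exact ⟨1, by simp⟩
      · exact ⟨t, by rw [ht]; simp⟩
  let L0 : (ℝ × ℝ) →ₗ[ℝ] (ℝ × ℝ) :=
    LinearMap.prod (lin ((q.1 : ℝ) - p.1) ((r.1 : ℝ) - p.1)) (lin ((q.2 : ℝ) - p.2) ((r.2 : ℝ) - p.2))
  have hL0 : ∀ z, L0 z = (((q.1 : ℝ) - p.1) * z.1 + ((r.1 : ℝ) - p.1) * z.2,
      ((q.2 : ℝ) - p.2) * z.1 + ((r.2 : ℝ) - p.2) * z.2) := by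
    intro z; simp [L0, lin_apply]
  have hinj : Function.Injective L0 := by
    rw [← LinearMap.ker_eq_bot, LinearMap.ker_eq_bot']
    intro z hz
    rw [hL0, Prod.mk_eq_zero] at hz
    obtain ⟨h1, h2⟩ := hz
    have e1 : (((q.1 : ℝ) - p.1) * (r.2 - p.2) - (r.1 - p.1) * (q.2 - p.2)) * z.1 = 0 := by
      linear_combination ((r.2 : ℝ) - p.2) * h1 - ((r.1 : ℝ) - p.1) * h2
    have e2 : (((q.1 : ℝ) - p.1) * (r.2 - p.2) - (r.1 - p.1) * (q.2 - p.2)) * z.2 = 0 := by
      linear_combination ((q.1 : ℝ) - p.1) * h2 - ((q.2 : ℝ) - p.2) * h1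
    exact Prod.ext ((mul_eq_zero.1 e1).resolve_left hD) ((mul_eq_zero.1 e2).resolve_left hD)
  let L : (ℝ × ℝ) ≃ₗ[ℝ] (ℝ × ℝ) := LinearEquiv.ofInjectiveEndo L0 hinj
  let T : ℤ × ℤ → ℤ × ℤ := fun x =>
    (p.1 + (q.1 - p.1) * x.1 + (r.1 - p.1) * x.2, p.2 + (q.2 - p.2) * x.1 + (r.2 - p.2) * x.2)
  have h := not_determines {(0, 0), (1, 0), (0, 1)} {(8, 9), (10, 12), (105, 120)}
    {(7, 8), (15, 18), (40, 45)} {(-1, -1), (10, -9), (8, -7), (1, 0), (-7, 6), (-5, 4)}
    T (emb p) L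
    (by
      intro x
      have : L (emb x) = L0 (emb x) := rfl
      rw [this, hL0]
      simp only [emb, T, Prod.mk_add_mk, Prod.mk.injEq]
      push_cast
      constructor <;> ring)
    (by decide +kernel) (by decide +kernel) (by decide +kernel) (by decide +kernel)
  have himg : Finset.image T {(0, 0), (1, 0), (0, 1)} = {p, q, r} := by
    simp [T, Finset.image_insert]
  rwa [himg] at h

end Pool.Agent.Results.MP_259ac5_co.ThreePoints
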